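import Pool.Agent.TH403.IPP.Positive

set_option autoImplicit false

/-!
# Fixed alphabet: the rate of sequential `k`-IPP codes is positive exactly for `q > k`

For `q ≤ k` a sequential `k`-IPP code has at most `k` words, so the rate tends to `0`; for `q > k`
the lower limit of the rate is at least `1 / (k ^ 2 (k + 1) q ^ (k ^ 2 + k) log q) > 0`.
-/

namespace Pool.Agent.Results.MP_96bab1_co.FixedAlphabetPositivity

open Filter Pool.Agent.H230R2.Seq Pool.Agent.TH403.IPP

theorem result (k q : ℕ) (hk : 1 ≤ k) (hq : 2 ≤ q) :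
    (q ≤ k → (∀ ℓ, maxSeq q ℓ k ≤ k) ∧ Tendsto (fun ℓ => rate q ℓ k) atTop (nhds 0)) ∧
    (k < q → 0 < 1 / ((k : ℝ) ^ 2 * (k + 1) * q ^ (k ^ 2 + k) * Real.log q) ∧
      1 / ((k : ℝ) ^ 2 * (k + 1) * q ^ (k ^ 2 + k) * Real.log q) ≤
        liminf (fun ℓ => rate q ℓ k) atTop) := by
  refine ⟨fun hqk => ⟨fun ℓ => ?_, small k q hk hq hqk⟩, fun hqk => ⟨?_, positive k q hk hqk⟩⟩
  · obtain ⟨C, hC, hC'⟩ := exists_max q ℓ k
    rw [← hC]
    exact small_alphabet hk hqk hC'
  · have h1 : (1 : ℝ) < q := by exact_mod_cast hq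
    have h2 : (0 : ℝ) < q := by linarith
    have h3 : (0 : ℝ) < k := by exact_mod_cast hk
    have h4 : 0 < Real.log q := Real.log_pos h1
    positivity

end Pool.Agent.Results.MP_96bab1_co.FixedAlphabetPositivity
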