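import Pool.Agent.TH403.IPP.Rate

set_option autoImplicit false

/-!
# The rate of sequential `k`-IPP codes over a fixed alphabet

For every `q ≥ 2` and `k ≥ 1`, as the length `ℓ` tends to infinity, the upper limit of `R(q,ℓ,k)`
is at most `2 / (k (k + 1))`, and the lower limit is at least
`2 / (k (k + 1)) (1 - log (4 k ^ 2) / log q) - log 2 / log q`. So both limits tend to
`2 / (k (k + 1))` as `q → ∞`.
-/

namespace Pool.Agent.Results.MP_96bab1_co.FixedAlphabetRate

open Filter Topology Pool.Agent.H230R2.Seq Pool.Agent.TH403.IPP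

theorem result (k : ℕ) (hk : 1 ≤ k) :
    (∀ q : ℕ, 2 ≤ q →
      2 / ((k : ℝ) * (k + 1)) * (1 - Real.log (4 * k ^ 2) / Real.log q) -
          Real.log 2 / Real.log q ≤ liminf (fun ℓ => rate q ℓ k) atTop ∧
      limsup (fun ℓ => rate q ℓ k) atTop ≤ 2 / ((k : ℝ) * (k + 1))) ∧
    Tendsto (fun q : ℕ => liminf (fun ℓ => rate q ℓ k) atTop) atTop
      (𝓝 (2 / ((k : ℝ) * (k + 1)))) ∧
    Tendsto (fun q : ℕ => limsup (fun ℓ => rate q ℓ k) atTop) atTop
      (𝓝 (2 / ((k : ℝ) * (k + 1)))) := by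
  have hlog : Tendsto (fun q : ℕ => Real.log (q : ℝ)) atTop atTop :=
    Real.tendsto_log_atTop.comp tendsto_natCast_atTop_atTop
  have hlow : Tendsto (fun q : ℕ => 2 / ((k : ℝ) * (k + 1)) *
      (1 - Real.log (4 * k ^ 2) / Real.log q) - Real.log 2 / Real.log q) atTop
      (𝓝 (2 / ((k : ℝ) * (k + 1)))) := by
    have h1 : Tendsto (fun q : ℕ => 2 / ((k : ℝ) * (k + 1)) *
        (1 - Real.log (4 * k ^ 2) / Real.log q) - Real.log 2 / Real.log q) atTop
        (𝓝 (2 / ((k : ℝ) * (k + 1)) * (1 - 0) - 0)) :=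
      ((tendsto_const_nhds.sub (tendsto_const_nhds.div_atTop hlog)).const_mul _).sub
        (tendsto_const_nhds.div_atTop hlog)
    simpa using h1
  have hle : ∀ q : ℕ, 2 ≤ q → liminf (fun ℓ => rate q ℓ k) atTop ≤
      limsup (fun ℓ => rate q ℓ k) atTop := fun q hq =>
    liminf_le_limsup (bdd_above q k hq) (bdd_below q k hq)
  refine ⟨fun q hq => ⟨lower k q hk hq, upper k q hk hq⟩, ?_, ?_⟩
  · refine tendsto_of_tendsto_of_tendsto_of_le_of_le' hlow tendsto_const_nhds ?_ ?_
    · filter_upwards [eventually_ge_atTop 2] with q hq using lower k q hk hq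
    · filter_upwards [eventually_ge_atTop 2] with q hq using (hle q hq).trans (upper k q hk hq)
  · refine tendsto_of_tendsto_of_tendsto_of_le_of_le' hlow tendsto_const_nhds ?_ ?_
    · filter_upwards [eventually_ge_atTop 2] with q hq using (lower k q hk hq).trans (hle q hq)
    · filter_upwards [eventually_ge_atTop 2] with q hq using upper k q hk hq

end Pool.Agent.Results.MP_96bab1_co.FixedAlphabetRate
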